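import Pool.Agent.Q85.VL.Defs
import Pool.Agent.Q67.VD.Alg

/-!
Project VL, VL-12: without a closed chain there is a function which increases along the arcs.
-/

set_option autoImplicit false

open MeasureTheory Set Metric
open scoped ContDiff
open H459R3.NS Pool.Agent.W268.NS Pool.Agent.Q67.VD

namespace Run7.h219.VL

open Pool.Agent.Q85.CC Pool.Agent.Q85.CL Pool.Agent.Q151.CC Pool.Agent.Q85.VL

lemma len_add_le (a b : V) : len (a + b) ≤ len a + len b := by
  rw [len_eq, len_eq, len_eq, WithLp.toLp_add]
  exact norm_add_le _ _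

lemma len_neg (a : V) : len (-a) = len a := by
  rw [len_eq, len_eq, WithLp.toLp_neg, norm_neg]

lemma len_sub_comm (a b : V) : len (a - b) = len (b - a) := by
  rw [← len_neg (a - b), neg_sub]

lemma len_sub_le_add (a b c : V) : len (a - c) ≤ len (a - b) + len (b - c) := by
  have h : a - c = (a - b) + (b - c) := by abel
  rw [h]
  exact len_add_le _ _

lemma len_le_norm (a : V) : len a ≤ 2 * ‖a‖ := by
  refine len_le_of_sq (by positivity) ?_
  have h : ∀ i, a i ^ 2 ≤ ‖a‖ ^ 2 := fun i => by
    rw [← sq_abs]
    exact pow_le_pow_left₀ (abs_nonneg _) (norm_le_pi_norm a i) 2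
  nlinarith [h 0, h 1, h 2, sq_nonneg ‖a‖]

/-- The values of the chains which end at `y`. -/
def Val (z : V → V) (D : Set V) (ε : ℝ) (y : V) : Set ℝ :=
  {c | ∃ (n : ℕ) (p q : ℕ → V) (l : ℕ → ℝ), p n = y ∧ (∀ i < n, Arc z D (p i) (q i) (l i)) ∧
    c = ε * ∑ i ∈ Finset.range n, l i - ∑ i ∈ Finset.range n, len (p (i + 1) - q i)}

lemma val_zero (z : V → V) (D : Set V) (ε : ℝ) (y : V) : (0 : ℝ) ∈ Val z D ε y :=
  ⟨0, fun _ => y, fun _ => y, fun _ => 0, rfl, fun i hi => absurd hi (Nat.not_lt_zero i), by simp⟩

lemma val_bdd {z : V → V} {D : Set V} {a : V} {R ε : ℝ} (hD : ∀ y ∈ D, ‖y - a‖ ≤ R)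
    (hc : ¬ Chained z D ε) (y : V) : ∀ c ∈ Val z D ε y, c ≤ 4 * |R| := by
  rintro c ⟨n, p, q, l, hp, hA, rfl⟩
  rcases Nat.eq_zero_or_pos n with rfl | hn
  · simp
  obtain ⟨k, rfl⟩ : ∃ k, n = k + 1 := ⟨n - 1, by omega⟩
  have hmem : ∀ i < k + 1, p i ∈ D ∧ q i ∈ D := by
    intro i hi
    obtain ⟨hl, γ, h0, h1, h2⟩ := hA i hi
    exact ⟨h0 ▸ (h2 0 ⟨le_rfl, hl.le⟩).1, h1 ▸ (h2 (l i) ⟨hl.le, le_rfl⟩).1⟩
  -- close the chain
  have hcl : ε * ∑ i ∈ Finset.range (k + 1), l i ≤
      ∑ i ∈ Finset.range k, len (p (i + 1) - q i) + len (p 0 - q k) := by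
    by_contra hcon
    push Not at hcon
    apply hc
    refine ⟨k + 1, fun i => if i = k + 1 then p 0 else p i, q, l, Nat.succ_pos k, ?_, ?_, ?_⟩
    · simp
    · intro i hi
      have : i ≠ k + 1 := by omega
      simp only [this, if_false]
      exact hA i hi
    · rw [Finset.sum_range_succ]
      refine lt_of_eq_of_lt ?_ hcon
      simp only [if_true]
      congr 1
      refine Finset.sum_congr rfl fun i hi => ?_
      have : i + 1 ≠ k + 1 := by
        have := Finset.mem_range.1 hi
        omega
      simp only [this, if_false]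
  rw [Finset.sum_range_succ (fun i => len (p (i + 1) - q i)), hp]
  have h1 : len (p 0 - q k) ≤ 4 * |R| := by
    refine (len_le_norm _).trans ?_
    have h2 := hD _ (hmem 0 (Nat.succ_pos k)).1
    have h3 := hD _ (hmem k (Nat.lt_succ_self k)).2
    have h4 : ‖p 0 - q k‖ ≤ ‖p 0 - a‖ + ‖q k - a‖ := by
      have : p 0 - q k = (p 0 - a) - (q k - a) := by abel
      rw [this]
      exact norm_sub_le _ _
    have h5 := le_abs_self R
    linarith
  have h6 := len_nonneg (y - q k)
  linarith

theorem stmG : StmG := by
  intro z D a R ε hD hε hc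
  have hbdd : ∀ y, BddAbove (Val z D ε y) := fun y => ⟨4 * |R|, fun c hcv => val_bdd hD hc y c hcv⟩
  have hne : ∀ y, (Val z D ε y).Nonempty := fun y => ⟨0, val_zero z D ε y⟩
  have hstep : ∀ y y', sSup (Val z D ε y) ≤ sSup (Val z D ε y') + len (y - y') := by
    intro y y'
    refine csSup_le (hne y) ?_
    rintro c ⟨n, p, q, l, hp, hA, rfl⟩
    rcases Nat.eq_zero_or_pos n with rfl | hn
    · have h1 := le_csSup (hbdd y') (val_zero z D ε y')
      have h2 := len_nonneg (y - y')
      simp only [Finset.range_zero, Finset.sum_empty, mul_zero, sub_zero]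
      linarith
    obtain ⟨k, rfl⟩ : ∃ k, n = k + 1 := ⟨n - 1, by omega⟩
    have hmem : ε * ∑ i ∈ Finset.range (k + 1), l i -
        (∑ i ∈ Finset.range k, len (p (i + 1) - q i) + len (y' - q k)) ∈ Val z D ε y' := by
      refine ⟨k + 1, fun i => if i = k + 1 then y' else p i, q, l, by simp, ?_, ?_⟩
      · intro i hi
        have : i ≠ k + 1 := by omega
        simp only [this, if_false]
        exact hA i hi
      · rw [Finset.sum_range_succ (fun i => len ((if i + 1 = k + 1 then y' else p (i + 1)) - q i))]
        simp only [if_true]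
        congr 2
        refine Finset.sum_congr rfl fun i hi => ?_
        have : i + 1 ≠ k + 1 := by
          have := Finset.mem_range.1 hi
          omega
        simp only [this, if_false]
    have h1 := le_csSup (hbdd y') hmem
    rw [Finset.sum_range_succ (fun i => len (p (i + 1) - q i)), hp]
    have h2 : len (y' - q k) ≤ len (y - y') + len (y - q k) := by
      have := len_sub_le_add y' y (q k)
      rwa [len_sub_comm y' y] at this
    linarith
  refine ⟨fun y => sSup (Val z D ε y), ?_, ?_⟩
  · intro y y'
    rw [abs_le]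
    constructor
    · have := hstep y' y
      rw [len_sub_comm y' y] at this
      linarith
    · have := hstep y y'
      linarith
  · intro p₀ q₀ l₀ harc
    show sSup (Val z D ε p₀) + ε * l₀ ≤ sSup (Val z D ε q₀)
    suffices h : ∀ c ∈ Val z D ε p₀, c ≤ sSup (Val z D ε q₀) - ε * l₀ by
      have := csSup_le (hne p₀) h
      linarith
    rintro c ⟨n, p, q, l, hp, hA, rfl⟩
    have hmem : ε * ∑ i ∈ Finset.range n, l i -
        ∑ i ∈ Finset.range n, len (p (i + 1) - q i) + ε * l₀ ∈ Val z D ε q₀ := by
      refine ⟨n + 1, fun i => if i = n + 1 then q₀ else p i, fun i => if i = n then q₀ else q i,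
        fun i => if i = n then l₀ else l i, by simp, ?_, ?_⟩
      · intro i hi
        have h1 : i ≠ n + 1 := by omega
        simp only [h1, if_false]
        by_cases h2 : i = n
        · subst h2
          simp only [if_true]
          rw [hp]
          exact harc
        · simp only [h2, if_false]
          exact hA i (by omega)
      · rw [Finset.sum_range_succ, Finset.sum_range_succ]
        simp only [if_true, sub_self]
        have e1 : ∑ x ∈ Finset.range n, (if x = n then l₀ else l x)
            = ∑ x ∈ Finset.range n, l x := by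
          refine Finset.sum_congr rfl fun i hi => ?_
          have : i ≠ n := (Finset.mem_range.1 hi).ne
          simp only [this, if_false]
        have e2 : ∑ x ∈ Finset.range n, len ((if x + 1 = n + 1 then q₀ else p (x + 1)) -
            (if x = n then q₀ else q x)) = ∑ x ∈ Finset.range n, len (p (x + 1) - q x) := by
          refine Finset.sum_congr rfl fun i hi => ?_
          have h1 : i ≠ n := (Finset.mem_range.1 hi).ne
          have h2 : i + 1 ≠ n + 1 := by omega
          simp only [h1, h2, if_false]
        have e3 : len (q₀ - q₀) = 0 := by rw [sub_self]; exact len_zero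
        rw [sub_self] at e3
        rw [e1, e2, e3]
        ring
    have := le_csSup (hbdd q₀) hmem
    linarith

end Run7.h219.VL
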