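import Pool.Agent.Run7.h219.VL.Wd

/-!
Project VL, VL-13: regularisation of the function which increases along the arcs.
-/

set_option autoImplicit false

open MeasureTheory Set Metric Filter Topology
open scoped ContDiff
open H459R3.NS Pool.Agent.W268.NS Pool.Agent.Q67.VD

namespace Run7.h219.VL

open Pool.Agent.Q85.CC Pool.Agent.Q85.CL Pool.Agent.Q151.CC Pool.Agent.Q85.VL

/-! ### Mollification -/

/-- A bump function with support in the ball of radius `δ`. -/
noncomputable def bmpd (δ : ℝ) (hδ : 0 < δ) : ContDiffBump (0 : V) := ⟨δ / 2, δ, by positivity, by linarith⟩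

/-- The mollified function. -/
noncomputable def mlf (δ : ℝ) (hδ : 0 < δ) (g : V → ℝ) (x : V) : ℝ :=
  ∫ t, (bmpd δ hδ).normed volume t * g (x - t)

lemma mlf_smooth {δ : ℝ} (hδ : 0 < δ) {g : V → ℝ} (hg : Continuous g) : ContDiff ℝ 1 (mlf δ hδ g) := by
  have h := HasCompactSupport.contDiff_convolution_left (μ := (volume : Measure V)) (n := 1)
    (ContinuousLinearMap.lsmul ℝ ℝ : ℝ →L[ℝ] ℝ →L[ℝ] ℝ)
    ((bmpd δ hδ).hasCompactSupport_normed (μ := volume))
    ((bmpd δ hδ).contDiff_normed (μ := volume) (n := 1)) (g := g) hg.locallyIntegrable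
  exact h

lemma mlf_int {δ : ℝ} (hδ : 0 < δ) {g : V → ℝ} (hg : Continuous g) (x : V) :
    Integrable fun t => (bmpd δ hδ).normed volume t * g (x - t) := by
  refine Continuous.integrable_of_hasCompactSupport ?_ ?_
  · exact (bmpd δ hδ).continuous_normed.mul (hg.comp (continuous_const.sub continuous_id))
  · exact ((bmpd δ hδ).hasCompactSupport_normed (μ := volume)).mul_right

/-- Lower bounds for differences. -/
lemma mlf_low {δ : ℝ} (hδ : 0 < δ) {g : V → ℝ} (hg : Continuous g) {x x' : V} {c : ℝ}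
    (h : ∀ t ∈ ball (0 : V) δ, c ≤ g (x' - t) - g (x - t)) :
    c ≤ mlf δ hδ g x' - mlf δ hδ g x := by
  have h1 : c = ∫ t, (bmpd δ hδ).normed volume t * c := by
    rw [integral_mul_const, (bmpd δ hδ).integral_normed, one_mul]
  unfold mlf
  rw [← integral_sub (mlf_int hδ hg x') (mlf_int hδ hg x), h1]
  refine integral_mono ?_ ((mlf_int hδ hg x').sub (mlf_int hδ hg x)) fun t => ?_
  · exact (bmpd δ hδ).integrable_normed.mul_const c
  · simp only
    rw [← mul_sub]
    by_cases ht : t ∈ ball (0 : V) δ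
    · exact mul_le_mul_of_nonneg_left (h t ht) ((bmpd δ hδ).nonneg_normed t)
    · have h2 : (bmpd δ hδ).normed volume t = 0 := by
        by_contra hne
        have h3 : t ∈ Function.support ((bmpd δ hδ).normed volume) := hne
        rw [(bmpd δ hδ).support_normed_eq] at h3
        exact ht h3
      rw [h2, zero_mul, zero_mul]

lemma lip_cont {g : V → ℝ} (hg : ∀ y y', |g y - g y'| ≤ len (y - y')) : Continuous g := by
  have h : LipschitzWith 2 g := LipschitzWith.of_dist_le_mul fun y y' => by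
    rw [Real.dist_eq, dist_eq_norm]
    exact (hg y y').trans (len_le_norm _)
  exact h.continuous

lemma mlf_lip {δ : ℝ} (hδ : 0 < δ) {g : V → ℝ} (hg : ∀ y y', |g y - g y'| ≤ len (y - y'))
    (y y' : V) : |mlf δ hδ g y - mlf δ hδ g y'| ≤ len (y - y') := by
  have hc := lip_cont hg
  rw [abs_le]
  constructor
  · refine mlf_low hδ hc fun t _ => ?_
    have h1 := (abs_le.1 (hg (y - t) (y' - t))).1
    rwa [sub_sub_sub_cancel_right] at h1
  · have h2 := mlf_low hδ hc (x := y) (x' := y') (c := -len (y - y')) fun t _ => by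
      have h1 := (abs_le.1 (hg (y - t) (y' - t))).2
      rw [sub_sub_sub_cancel_right] at h1
      linarith
    linarith

/-! ### Directional derivatives -/

lemma dir_low {G : V → ℝ} {y n : V} {c : ℝ} (hG : DifferentiableAt ℝ G y)
    (h : ∀ᶠ t : ℝ in 𝓝[>] 0, c * t ≤ G (y + t • n) - G y) : c ≤ fderiv ℝ G y n := by
  have h1 : HasDerivAt (fun t : ℝ => y + t • n) n 0 := by
    simpa using ((hasDerivAt_id (0 : ℝ)).smul_const n).const_add y
  have h2 : HasFDerivAt G (fderiv ℝ G y) (y + (0 : ℝ) • n) := by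
    rw [zero_smul, add_zero]
    exact hG.hasFDerivAt
  have h3 := h2.comp_hasDerivAt (0 : ℝ) h1
  have h4 := h3.tendsto_slope_zero_right
  refine ge_of_tendsto h4 ?_
  filter_upwards [h, self_mem_nhdsWithin] with t ht ht0
  have ht0' : 0 < t := ht0
  simp only [Function.comp, zero_add, zero_smul, add_zero, smul_eq_mul]
  rw [inv_mul_eq_div, le_div_iff₀ ht0']
  exact ht

lemma dir_lip {G : V → ℝ} {y n : V} (hG : DifferentiableAt ℝ G y)
    (h : ∀ y y', |G y - G y'| ≤ len (y - y')) : -len n ≤ fderiv ℝ G y n := by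
  refine dir_low hG ?_
  filter_upwards [self_mem_nhdsWithin] with t ht0
  have ht0' : 0 < t := ht0
  have h1 := (abs_le.1 (h (y + t • n) y)).1
  rw [add_sub_cancel_left, len_smul, abs_of_pos ht0'] at h1
  linarith

/-- A continuous function which increases locally to the right increases. -/
lemma cont_ind {f : ℝ → ℝ} {τ : ℝ} (hτ : 0 ≤ τ) (hf : ContinuousOn f (Icc 0 τ))
    (h : ∀ t ∈ Ico 0 τ, ∀ᶠ s in 𝓝[>] t, f t ≤ f s) : f 0 ≤ f τ := by
  have hcl : IsClosed ({t | f 0 ≤ f t} ∩ Icc 0 τ) := by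
    have h1 : {t | f 0 ≤ f t} ∩ Icc 0 τ = Icc 0 τ ∩ f ⁻¹' Ici (f 0) := by
      ext t
      simp [and_comm]
    rw [h1]
    exact hf.preimage_isClosed_of_isClosed isClosed_Icc isClosed_Ici
  have hsub : Icc 0 τ ⊆ {t | f 0 ≤ f t} := by
    refine hcl.Icc_subset_of_forall_mem_nhdsWithin (by rw [Set.mem_ofPred_eq]) ?_
    rintro t ⟨ht1, ht2⟩
    have ht1' : f 0 ≤ f t := ht1
    filter_upwards [h t ht2] with s hs
    exact ht1'.trans hs
  exact hsub ⟨hτ, le_rfl⟩

/-! ### The arcs -/

/-- The unit vector field. -/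
noncomputable def uf1 (v : V → V) (θ : V → ℝ) (y : V) : V := (len (θ y • vort v y))⁻¹ • θ y • vort v y

lemma len_pos {b : V} (h : b ≠ 0) : 0 < len b := by
  rcases (len_nonneg b).lt_or_eq with h1 | h1
  · exact h1
  · exfalso
    apply h
    funext i
    have h2 := abs_le_len b i
    rw [← h1] at h2
    simpa using h2

lemma len_th {θ : V → ℝ} (h1 : ∀ y, θ y = 1 ∨ θ y = -1) (v : V → V) (y : V) :
    len (θ y • vort v y) = om v y := by
  rw [len_smul]
  rcases h1 y with h | h <;> rw [h] <;> simp [om]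

lemma om_pos_ne {v : V → V} {y : V} (h : 0 < om v y) : vort v y ≠ 0 := by
  intro h0
  unfold om at h
  rw [h0, len_zero] at h
  exact lt_irrefl _ h

lemma loc_const {v : V → V} (hv : SM v) {θ : V → ℝ} {a : V} {R : ℝ} (hθ : Orient θ a R (vort v))
    {y : V} (hy : ‖y - a‖ ≤ R) (h0 : vort v y ≠ 0) : ∀ᶠ y' in 𝓝 y, ‖y' - a‖ ≤ R → θ y' = θ y := by
  obtain ⟨hθ1, hθc⟩ := hθ
  have hωc : Continuous (vort v) := continuous_pi fun i => vort_contL hv i
  have hopen : IsOpen {y | vort v y ≠ 0} := isOpen_ne_fun hωc continuous_const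
  have h1 : ContinuousWithinAt θ {y | ‖y - a‖ ≤ R ∧ vort v y ≠ 0} y := hθc y ⟨hy, h0⟩
  have h2 : ∀ᶠ y' in 𝓝[{y | ‖y - a‖ ≤ R ∧ vort v y ≠ 0}] y, |θ y' - θ y| < 1 := by
    have := h1 (Metric.ball_mem_nhds (θ y) one_pos)
    filter_upwards [this] with y' hy'
    exact hy'
  rw [eventually_nhdsWithin_iff] at h2
  filter_upwards [h2, hopen.mem_nhds h0] with y' h3 h4 h5
  have h6 := h3 ⟨h5, h4⟩
  rcases hθ1 y' with h7 | h7 <;> rcases hθ1 y with h8 | h8 <;> rw [h7, h8] at h6 ⊢ <;>
    norm_num at h6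

/-- Short arcs. -/
lemma short_arc {v : V → V} (hv : SM v) {θ : V → ℝ} {a : V} {R : ℝ}
    (hθ : Orient θ a R (vort v)) {D : Set V} {w : V} (hw : ‖w - a‖ < R) (h0 : vort v w ≠ 0)
    (hD : D ∈ 𝓝 w) (U : Set V) (hU : U ∈ 𝓝 w) : ∃ (γ : ℝ → V) (h₀ : ℝ), 0 < h₀ ∧ γ 0 = w ∧
      ∀ h ∈ Ico 0 h₀, γ h ∈ U ∧ HasDerivAt γ (uf1 v θ (γ h)) h ∧
        (0 < h → Arc (fun y => θ y • vort v y) D w (γ h) h) := by
  have hωc : Continuous (vort v) := continuous_pi fun i => vort_contL hv i
  -- the smooth field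
  have hf : ContDiffAt ℝ 1 (fun y => (√(qq v y))⁻¹ • (θ w • vort v y)) w := by
    have h1 : ContDiffAt ℝ 1 (qq v) w := ((qq_smooth hv).of_le (by norm_cast)).contDiffAt
    have h2 : ContDiffAt ℝ 1 (fun y => √(qq v y)) w := h1.sqrt (qq_pos h0).ne'
    have h3 : ContDiffAt ℝ 1 (vort v) w := by
      rw [contDiffAt_pi]
      exact fun i => ((sm_vortL hv i).of_le (by norm_cast)).contDiffAt
    exact (h2.inv (Real.sqrt_ne_zero'.2 (qq_pos h0))).smul (h3.const_smul _)
  obtain ⟨γ, hγ0, r, hr, hγ⟩ :=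
    hf.exists_forall_mem_closedBall_exists_eq_forall_mem_Ioo_hasDerivAt₀ 0
  have hlen : ∀ y, len (vort v y) = √(qq v y) := by
    intro y
    unfold len qq
    congr 1
    simp only [dotProduct]
    exact Finset.sum_congr rfl fun i _ => (sq _).symm
  have hcon : ContinuousAt γ 0 := (hγ 0 (by constructor <;> linarith)).continuousAt
  have hev : ∀ᶠ y in 𝓝 w, y ∈ D ∧ y ∈ U ∧ uf1 v θ y = (√(qq v y))⁻¹ • (θ w • vort v y) := by
    have h1 : ∀ᶠ y in 𝓝 w, ‖y - a‖ ≤ R := by
      have : Continuous fun y : V => ‖y - a‖ := (continuous_id.sub continuous_const).norm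
      filter_upwards [this.continuousAt.eventually (gt_mem_nhds hw)] with y hy
      exact le_of_lt hy
    filter_upwards [hD, hU, h1, loc_const hv hθ hw.le h0] with y h2 h3 h4 h5
    refine ⟨h2, h3, ?_⟩
    unfold uf1
    rw [len_th hθ.1, h5 h4, ← hlen]
    rfl
  have hev1 : ∀ᶠ y in 𝓝 (γ 0), y ∈ D ∧ y ∈ U ∧
      uf1 v θ y = (√(qq v y))⁻¹ • (θ w • vort v y) := by
    rw [hγ0]
    exact hev
  have hev2 := hcon.eventually hev1
  obtain ⟨s, hs, hs2⟩ := Metric.eventually_nhds_iff.1 hev2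
  refine ⟨γ, min s r, lt_min hs hr, hγ0, fun h hh => ?_⟩
  have key : ∀ τ ∈ Icc (0 : ℝ) h, (γ τ ∈ D ∧ γ τ ∈ U ∧
      uf1 v θ (γ τ) = (√(qq v (γ τ)))⁻¹ • (θ w • vort v (γ τ))) ∧
      HasDerivAt γ (uf1 v θ (γ τ)) τ := by
    intro τ hτ
    have h1 : τ < min s r := hτ.2.trans_lt hh.2
    have h2 : dist τ 0 < s := by
      rw [Real.dist_eq, sub_zero, abs_of_nonneg hτ.1]
      exact h1.trans_le (min_le_left _ _)
    have h3 := hs2 h2
    refine ⟨h3, ?_⟩
    rw [h3.2.2]
    exact hγ τ ⟨by linarith [hτ.1], by linarith [h1.trans_le (min_le_right s r)]⟩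
  refine ⟨(key h ⟨hh.1, le_rfl⟩).1.2.1, (key h ⟨hh.1, le_rfl⟩).2,
    fun h0' => ⟨h0', γ, hγ0, rfl, fun τ hτ => ⟨(key τ hτ).1.1, ?_⟩⟩⟩
  exact (key τ hτ).2.hasDerivWithinAt

set_option maxHeartbeats 1000000 in
theorem stmMol : StmMol := by
  intro v θ m g a R ε hv hR hε hε1 hm hm0 hθ hg harc
  have hgc := lip_cont hg
  have hωc : Continuous (vort v) := continuous_pi fun i => vort_contL hv i
  have homc : Continuous (om v) := om_contL hv
  -- compact set
  obtain ⟨K, hK⟩ : ∃ K : Set V, K = {y | ‖y - a‖ ≤ R ∧ m y + 1 / 2 ≤ om v y} := ⟨_, rfl⟩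
  have hKc : IsCompact K := by
    refine (isCompact_closedBall a R).of_isClosed_subset ?_ ?_
    · rw [hK]
      exact (isClosed_le ((continuous_id.sub continuous_const).norm) continuous_const).inter
        (isClosed_le (hm.add continuous_const) homc)
    · rw [hK]
      rintro y ⟨hy, -⟩
      rw [mem_closedBall, dist_eq_norm]
      exact hy
  have hKpos : ∀ y ∈ K, 0 < om v y := by
    rw [hK]
    rintro y ⟨-, hy⟩
    have := hm0 y
    linarith
  have hdc : ContinuousOn (uf1 v θ) K := by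
    intro y hy
    have hyK := hy
    rw [hK] at hy
    have h0 := om_pos_ne (hKpos y hyK)
    have h1 : ContinuousWithinAt θ K y := by
      have h2 : (fun _ => θ y) =ᶠ[𝓝[K] y] θ := by
        rw [EventuallyEq, eventually_nhdsWithin_iff]
        filter_upwards [loc_const hv hθ hy.1 h0] with y' h3 h4
        rw [hK] at h4
        exact (h3 h4.1).symm
      exact continuousWithinAt_const.congr_of_eventuallyEq h2.symm rfl
    have e : uf1 v θ = fun y => (om v y)⁻¹ • θ y • vort v y := by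
      funext y
      unfold uf1
      rw [len_th hθ.1]
    rw [e]
    exact (homc.continuousWithinAt.inv₀ (hKpos y hyK).ne').smul (h1.smul hωc.continuousWithinAt)
  have huc := hKc.uniformContinuousOn_of_continuous hdc
  rw [Metric.uniformContinuousOn_iff] at huc
  obtain ⟨δ₂, hδ₂, hu2⟩ := huc (ε / 4) (by positivity)
  have hoc : ContinuousOn (fun y => om v y - m y) (closedBall a R) := (homc.sub hm).continuousOn
  have huc1 := (isCompact_closedBall a R).uniformContinuousOn_of_continuous hoc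
  rw [Metric.uniformContinuousOn_iff] at huc1
  obtain ⟨δ₁, hδ₁, hu1⟩ := huc1 (1 / 2) (by positivity)
  obtain ⟨δ, hδ, hδ1, hδ2, hδ3⟩ : ∃ δ : ℝ, 0 < δ ∧ 4 * δ ≤ δ₁ ∧ 4 * δ ≤ δ₂ ∧ 4 * δ ≤ R / 2 := by
    refine ⟨min (min δ₁ δ₂) (R / 2) / 4, by positivity, ?_, ?_, ?_⟩
    · have := (min_le_left (min δ₁ δ₂) (R / 2)).trans (min_le_left _ _)
      linarith
    · have := (min_le_left (min δ₁ δ₂) (R / 2)).trans (min_le_right _ _)
      linarith
    · have := min_le_right (min δ₁ δ₂) (R / 2)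
      linarith
  refine ⟨mlf δ hδ g, mlf_smooth hδ hgc, mlf_lip hδ hg, fun y hy => ?_⟩
  have hdiff : DifferentiableAt ℝ (mlf δ hδ g) y :=
    (mlf_smooth hδ hgc).differentiable one_ne_zero y
  have hlt := len_th hθ.1 v y
  have hm0y := hm0 y
  by_cases hsm : om v y ≤ 4 / 3 * (m y + 1)
  · have h1 := dir_lip (n := θ y • vort v y) hdiff (mlf_lip hδ hg)
    rw [hlt] at h1
    have h2 : ε / 2 * om v y ≤ 1 / 2 * om v y :=
      mul_le_mul_of_nonneg_right (by linarith) (Pool.Agent.Q151.CC.om_nonneg v y)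
    linarith
  push Not at hsm
  -- the direction
  obtain ⟨n, hn⟩ : ∃ n, n = uf1 v θ y := ⟨_, rfl⟩
  have homy : 0 < om v y := by linarith
  have hnear : ∀ w, ‖w - y‖ < 4 * δ → ‖w - a‖ < R ∧ w ∈ K ∧ m w < om v w ∧
      ‖uf1 v θ w - n‖ ≤ ε / 4 := by
    intro w hw
    have h1 : ‖w - a‖ < R := by
      have : w - a = (w - y) + (y - a) := by abel
      rw [this]
      have := norm_add_le (w - y) (y - a)
      linarith
    have hyR : ‖y - a‖ ≤ R := by linarith
    have h2 := hu1 w (by rw [mem_closedBall, dist_eq_norm]; exact h1.le) y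
      (by rw [mem_closedBall, dist_eq_norm]; exact hyR) (by rw [dist_eq_norm]; linarith)
    rw [Real.dist_eq, abs_lt] at h2
    have h3 : m w + 1 / 2 ≤ om v w := by linarith [h2.1]
    have hwK : w ∈ K := by rw [hK]; exact ⟨h1.le, h3⟩
    have hyK : y ∈ K := by rw [hK]; exact ⟨hyR, by linarith⟩
    have h4 := hu2 w hwK y hyK (by rw [dist_eq_norm]; linarith)
    rw [dist_eq_norm, ← hn] at h4
    exact ⟨h1, hwK, by linarith, h4.le⟩
  -- local increase
  have hinc : ∀ w, ‖w - y‖ < 3 * δ → ∀ᶠ h in 𝓝[>] (0 : ℝ), g w + ε / 2 * h ≤ g (w + h • n) := by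
    intro w hw
    obtain ⟨hw1, hw2, hw3, hw4⟩ := hnear w (by linarith)
    have hU : ball y (4 * δ) ∈ 𝓝 w :=
      isOpen_ball.mem_nhds (by rw [Metric.mem_ball, dist_eq_norm]; linarith)
    have hD : {y | ‖y - a‖ ≤ R ∧ m y < om v y} ∈ 𝓝 w := by
      filter_upwards [hU] with x hx
      rw [Metric.mem_ball, dist_eq_norm] at hx
      obtain ⟨h1, -, h2, -⟩ := hnear x hx
      exact ⟨h1.le, h2⟩
    obtain ⟨γ, h₀, hh₀, hγ0, hγ⟩ := short_arc hv hθ hw1 (om_pos_ne (hKpos w hw2)) hD _ hU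
    filter_upwards [Ioo_mem_nhdsGT hh₀] with h hh
    have hA := (hγ h ⟨hh.1.le, hh.2⟩).2.2 hh.1
    have h1 := harc _ _ _ hA
    -- the distance from the straight line
    have h2 : ‖(γ h - h • n) - (γ 0 - (0 : ℝ) • n)‖ ≤ ε / 4 * (h - 0) := by
      have hder : ∀ s ∈ Icc (0 : ℝ) h, HasDerivWithinAt (fun s => γ s - s • n)
          ((fun s => uf1 v θ (γ s) - n) s) (Icc 0 h) s := by
        intro s hs
        have h3 : HasDerivWithinAt γ (uf1 v θ (γ s)) (Icc 0 h) s :=
          (hγ s ⟨hs.1, hs.2.trans_lt hh.2⟩).2.1.hasDerivWithinAt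
        have h4 : HasDerivWithinAt (fun s : ℝ => s • n) n (Icc 0 h) s := by
          simpa using ((hasDerivAt_id s).smul_const n).hasDerivWithinAt
        exact h3.sub h4
      refine (Convex.norm_image_sub_le_of_norm_hasDerivWithin_le (C := ε / 4) hder
        (fun s hs => ?_) (convex_Icc (0 : ℝ) h) ⟨le_rfl, hh.1.le⟩ ⟨hh.1.le, le_rfl⟩).trans (le_of_eq ?_)
      · have h5 := (hγ s ⟨hs.1, hs.2.trans_lt hh.2⟩).1
        rw [Metric.mem_ball, dist_eq_norm] at h5
        exact (hnear _ h5).2.2.2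
      · rw [Real.norm_eq_abs, sub_zero, abs_of_pos hh.1]
    rw [hγ0, zero_smul, sub_zero, sub_zero] at h2
    have h3 : len (γ h - (w + h • n)) ≤ ε / 2 * h := by
      refine (len_le_norm _).trans ?_
      have : γ h - (w + h • n) = γ h - h • n - w := by abel
      rw [this]
      linarith
    have h4 := (abs_le.1 (hg (γ h) (w + h • n))).2
    linarith
  -- uniform increase
  have hun : ∀ w, ‖w - y‖ ≤ δ → ∀ t, 0 ≤ t → t ≤ δ → g w + ε / 2 * t ≤ g (w + t • n) := by
    intro w hw t ht0 ht1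
    have hnn : ‖n‖ ≤ 1 := by
      rw [pi_norm_le_iff_of_nonneg zero_le_one]
      intro i
      rw [Real.norm_eq_abs]
      refine (abs_le_len n i).trans ?_
      rw [hn]
      unfold uf1
      rw [len_smul, hlt, abs_of_pos (inv_pos.2 homy), inv_mul_cancel₀ homy.ne']
    have hci := cont_ind (f := fun s => g (w + s • n) - ε / 2 * s) ht0 ?_ ?_
    · simp only [zero_smul, add_zero, mul_zero, sub_zero] at hci
      linarith
    · exact ((hgc.comp (continuous_const.add (continuous_id.smul continuous_const))).sub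
        (continuous_const.mul continuous_id)).continuousOn
    · intro s hs
      have h1 : ‖(w + s • n) - y‖ < 3 * δ := by
        have : (w + s • n) - y = (w - y) + s • n := by abel
        rw [this]
        have h2 := norm_add_le (w - y) (s • n)
        have h3 : ‖s • n‖ ≤ δ := by
          rw [norm_smul, Real.norm_eq_abs, abs_of_nonneg hs.1]
          have : s * ‖n‖ ≤ s * 1 := mul_le_mul_of_nonneg_left hnn hs.1
          linarith [hs.2]
        linarith
      have h2 := hinc _ h1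
      have h3 : Tendsto (fun x : ℝ => x - s) (𝓝[>] s) (𝓝[>] 0) := by
        refine tendsto_nhdsWithin_iff.2 ⟨?_, ?_⟩
        · have : Tendsto (fun x : ℝ => x - s) (𝓝 s) (𝓝 (s - s)) :=
            (continuous_id.sub continuous_const).tendsto s
          rw [sub_self] at this
          exact this.mono_left nhdsWithin_le_nhds
        · filter_upwards [self_mem_nhdsWithin] with x hx
          have : s < x := hx
          show (0 : ℝ) < x - s
          linarith
      filter_upwards [h3.eventually h2] with x hx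
      have e : w + s • n + (x - s) • n = w + x • n := by
        rw [sub_smul]
        abel
      rw [e] at hx
      show g (w + s • n) - ε / 2 * s ≤ g (w + x • n) - ε / 2 * x
      linarith
  have hdn : ε / 2 ≤ fderiv ℝ (mlf δ hδ g) y n := by
    refine dir_low hdiff ?_
    filter_upwards [Ioo_mem_nhdsGT hδ] with t ht
    refine mlf_low hδ hgc fun z hz => ?_
    rw [Metric.mem_ball, dist_zero_right] at hz
    have h1 := hun (y - z) (by rw [sub_sub_cancel_left, norm_neg]; exact hz.le) t ht.1.le ht.2.le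
    have e : y + t • n - z = y - z + t • n := by abel
    rw [e]
    linarith
  have hz : θ y • vort v y = om v y • n := by
    rw [hn]
    unfold uf1
    rw [hlt, smul_smul, mul_inv_cancel₀ homy.ne', one_smul]
  rw [hz, map_smul, smul_eq_mul]
  have h5 := mul_le_mul_of_nonneg_left hdn homy.le
  linarith

end Run7.h219.VL
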