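import Pool.Agent.Q85.VL.Defs
import Pool.Agent.Q67.VD.Alg
import Pool.Agent.Q151.CC.Double
import Pool.Agent.Q85.CL.FluxL
import Pool.Agent.Run7.h219.VL.G

/-!
Project VL, VL-11: for an orientation `θ` of the vorticity the field `θ ω` is weakly free of
divergence.
-/

set_option autoImplicit false

open MeasureTheory Set Metric Filter Topology
open scoped ContDiff
open H459R3.NS Pool.Agent.W268.NS Pool.Agent.Q67.VD

namespace Run7.h219.VL

open Pool.Agent.Q85.CC Pool.Agent.Q85.CL Pool.Agent.Q151.CC Pool.Agent.Q85.VL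

/-- The nearest point of the cube. -/
noncomputable def clp (a : V) (R : ℝ) (y : V) : V := fun i => max (a i - R) (min (a i + R) (y i))

lemma clp_cont (a : V) (R : ℝ) : Continuous (clp a R) := by
  unfold clp
  fun_prop

lemma clp_mem (a : V) {R : ℝ} (hR : 0 ≤ R) (y : V) : ‖clp a R y - a‖ ≤ R := by
  rw [pi_norm_le_iff_of_nonneg hR]
  intro i
  rw [Real.norm_eq_abs, abs_le, Pi.sub_apply]
  unfold clp
  constructor
  · have := le_max_left (a i - R) (min (a i + R) (y i))
    linarith
  · have : max (a i - R) (min (a i + R) (y i)) ≤ a i + R :=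
      max_le (by linarith) (min_le_left _ _)
    linarith

lemma clp_eq {a y : V} {R : ℝ} (h : ‖y - a‖ ≤ R) : clp a R y = y := by
  funext i
  have h1 := (norm_le_pi_norm (y - a) i).trans h
  rw [Real.norm_eq_abs, abs_le, Pi.sub_apply] at h1
  unfold clp
  rw [min_eq_right (by linarith), max_eq_right (by linarith)]

lemma st_bdd : ∃ K : ℝ, 0 ≤ K ∧ ∀ x, |deriv Real.smoothTransition x| ≤ K := by
  have hc : Continuous (deriv Real.smoothTransition) :=
    Real.smoothTransition.contDiff.continuous_deriv (n := 1) le_rfl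
  obtain ⟨K, hK⟩ := (isCompact_Icc (a := (0 : ℝ)) (b := 1)).exists_bound_of_continuousOn
    hc.continuousOn
  refine ⟨max K 0, le_max_right _ _, fun x => ?_⟩
  by_cases hx : x ∈ Icc (0 : ℝ) 1
  · exact (hK x hx).trans (le_max_left _ _)
  · have h0 : deriv Real.smoothTransition x = 0 := by
      rw [mem_Icc, not_and_or, not_le, not_le] at hx
      rcases hx with hx | hx
      · have : Real.smoothTransition =ᶠ[𝓝 x] fun _ => 0 := by
          filter_upwards [gt_mem_nhds hx] with y hy
          exact Real.smoothTransition.zero_of_nonpos hy.le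
        rw [this.deriv_eq]
        simp
      · have : Real.smoothTransition =ᶠ[𝓝 x] fun _ => 1 := by
          filter_upwards [lt_mem_nhds hx] with y hy
          exact Real.smoothTransition.one_of_one_le hy.le
        rw [this.deriv_eq]
        simp
    rw [h0, abs_zero]
    exact le_max_right _ _

lemma st_zero {x : ℝ} (hx : 1 < x) : deriv Real.smoothTransition x = 0 := by
  have : Real.smoothTransition =ᶠ[𝓝 x] fun _ => 1 := by
    filter_upwards [lt_mem_nhds hx] with y hy
    exact Real.smoothTransition.one_of_one_le hy.le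
  rw [this.deriv_eq]
  simp

/-- `|ω|²`. -/
noncomputable def qq (v : V → V) (y : V) : ℝ := ∑ i, vort v y i ^ 2

lemma qq_smooth {v : V → V} (hv : SM v) : ContDiff ℝ ∞ (qq v) := by
  unfold qq
  exact ContDiff.sum fun i _ => (sm_vortL hv i).pow 2

lemma qq_nonneg (v : V → V) (y : V) : 0 ≤ qq v y := Finset.sum_nonneg fun i _ => sq_nonneg _

lemma qq_pos {v : V → V} {y : V} (h : vort v y ≠ 0) : 0 < qq v y := by
  obtain ⟨i, hi⟩ := Function.ne_iff.1 h
  refine lt_of_lt_of_le (pow_pos (abs_pos.2 hi) 2) ?_
  rw [sq_abs]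
  exact Finset.single_le_sum (f := fun j => vort v y j ^ 2) (fun j _ => sq_nonneg _)
    (Finset.mem_univ i)

lemma norm_sq_le_qq (v : V → V) (y : V) : ‖vort v y‖ ^ 2 ≤ qq v y := by
  have h : ‖vort v y‖ ≤ √(qq v y) := by
    rw [pi_norm_le_iff_of_nonneg (Real.sqrt_nonneg _)]
    intro i
    rw [Real.norm_eq_abs]
    refine Real.le_sqrt_of_sq_le ?_
    rw [sq_abs]
    exact Finset.single_le_sum (f := fun j => vort v y j ^ 2) (fun j _ => sq_nonneg _)
      (Finset.mem_univ i)
  calc ‖vort v y‖ ^ 2 ≤ √(qq v y) ^ 2 := pow_le_pow_left₀ (norm_nonneg _) h 2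
    _ = qq v y := Real.sq_sqrt (qq_nonneg _ _)

/-- The cut-off function. -/
noncomputable def Hn (v : V → V) (N : ℝ) (y : V) : ℝ := Real.smoothTransition (N * qq v y - 1)

lemma Hn_smooth {v : V → V} (hv : SM v) (N : ℝ) : ContDiff ℝ 1 (Hn v N) :=
  Real.smoothTransition.contDiff.comp
    ((contDiff_const.mul ((qq_smooth hv).of_le (by norm_cast))).sub contDiff_const)

lemma Hn_deriv {v : V → V} (hv : SM v) (N : ℝ) (y w : V) :
    fderiv ℝ (Hn v N) y w = deriv Real.smoothTransition (N * qq v y - 1) *
      (N * ∑ i, 2 * vort v y i * fderiv ℝ (fun z => vort v z i) y w) := by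
  have h1 : ∀ i, HasFDerivAt (fun z => vort v z i) (fderiv ℝ (fun z => vort v z i) y) y :=
    fun i => ((sm_vortL hv i).differentiable (by norm_num) y).hasFDerivAt
  have h2 : HasFDerivAt (qq v) (∑ i, (2 * vort v y i) • fderiv ℝ (fun z => vort v z i) y) y := by
    unfold qq
    refine HasFDerivAt.fun_sum fun i _ => ?_
    have h3 : HasDerivAt (fun t : ℝ => t ^ 2) (2 * vort v y i) (vort v y i) := by
      simpa using hasDerivAt_pow 2 (vort v y i)
    exact h3.comp_hasFDerivAt y (h1 i)
  have h3 : HasFDerivAt (fun z => N * qq v z - 1)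
      (N • ∑ i, (2 * vort v y i) • fderiv ℝ (fun z => vort v z i) y) y :=
    (h2.const_mul N).sub_const 1
  have h4 : HasDerivAt Real.smoothTransition (deriv Real.smoothTransition (N * qq v y - 1))
      (N * qq v y - 1) :=
    (Real.smoothTransition.contDiff.differentiable (n := 1) one_ne_zero _).hasDerivAt
  have h5 := h4.comp_hasFDerivAt y h3
  have h6 : fderiv ℝ (Hn v N) y = deriv Real.smoothTransition (N * qq v y - 1) •
      (N • ∑ i, (2 * vort v y i) • fderiv ℝ (fun z => vort v z i) y) := h5.fderiv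
  rw [h6]
  simp [ContinuousLinearMap.sum_apply, ContinuousLinearMap.smul_apply, mul_assoc]

theorem stmWd : StmWd := by
  intro v θ a R hv hR hθ
  obtain ⟨hθ1, hθc⟩ := hθ
  have hωc : Continuous (vort v) := continuous_pi fun i => vort_contL hv i
  have hopen : IsOpen {y | vort v y ≠ 0} := isOpen_ne_fun hωc continuous_const
  have habs : ∀ y, |θ y| = 1 := fun y => by rcases hθ1 y with h | h <;> rw [h] <;> norm_num
  -- locally constant
  have hloc : ∀ y, ‖y - a‖ ≤ R → vort v y ≠ 0 → ∀ᶠ y' in 𝓝 y, ‖y' - a‖ ≤ R → θ y' = θ y := by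
    intro y hy h0
    have h1 : ContinuousWithinAt θ {y | ‖y - a‖ ≤ R ∧ vort v y ≠ 0} y := hθc y ⟨hy, h0⟩
    have h2 : ∀ᶠ y' in 𝓝[{y | ‖y - a‖ ≤ R ∧ vort v y ≠ 0}] y, |θ y' - θ y| < 1 := by
      have := h1 (Metric.ball_mem_nhds (θ y) one_pos)
      filter_upwards [this] with y' hy'
      exact hy'
    rw [eventually_nhdsWithin_iff] at h2
    filter_upwards [h2, hopen.mem_nhds h0] with y' h3 h4 h5
    have h6 := h3 ⟨h5, h4⟩
    rcases hθ1 y' with h7 | h7 <;> rcases hθ1 y with h8 | h8 <;> rw [h7, h8] at h6 ⊢ <;>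
      norm_num at h6
  -- the continuous field
  have hcon : ContinuousOn (fun y => θ y • vort v y) {y | ‖y - a‖ ≤ R} := by
    intro y hy
    by_cases h0 : vort v y = 0
    · have h1 : Tendsto (fun y' => ‖vort v y'‖) (𝓝[{y | ‖y - a‖ ≤ R}] y) (𝓝 0) := by
        have := (hωc.norm.tendsto y)
        rw [h0, norm_zero] at this
        exact this.mono_left nhdsWithin_le_nhds
      show Tendsto _ _ (𝓝 (θ y • vort v y))
      rw [h0, smul_zero]
      rw [tendsto_zero_iff_norm_tendsto_zero]
      refine h1.congr fun y' => ?_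
      rw [norm_smul, Real.norm_eq_abs, habs, one_mul]
    · have h1 : ContinuousWithinAt θ {y | ‖y - a‖ ≤ R} y := by
        have h2 : (fun _ => θ y) =ᶠ[𝓝[{y | ‖y - a‖ ≤ R}] y] θ := by
          rw [EventuallyEq, eventually_nhdsWithin_iff]
          filter_upwards [hloc y hy h0] with y' h3 h4
          exact (h3 h4).symm
        exact continuousWithinAt_const.congr_of_eventuallyEq h2.symm rfl
      exact h1.smul hωc.continuousWithinAt
  obtain ⟨W, hW⟩ : ∃ W : V → V, W = fun y => θ (clp a R y) • vort v (clp a R y) := ⟨_, rfl⟩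
  have hWc : Continuous W := by
    rw [hW]
    exact hcon.comp_continuous (clp_cont a R) fun y => clp_mem a hR.le y
  have hWe : ∀ y, ‖y - a‖ ≤ R → W y = θ y • vort v y := fun y hy => by rw [hW]; simp only [clp_eq hy]
  refine ⟨W, ⟨hWc, fun F hF hts => ?_⟩, hWe⟩
  have hmem : ∀ y, y ∈ closedBall a R ↔ ‖y - a‖ ≤ R := fun y => by rw [mem_closedBall, dist_eq_norm]
  have hF0 : ∀ y, y ∉ closedBall a R → F y = 0 := fun y hy => by
    by_contra h
    exact hy (hts (subset_tsupport _ h))
  have hdF0 : ∀ y, y ∉ closedBall a R → fderiv ℝ F y = 0 := fun y hy => by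
    by_contra h
    exact hy (hts (support_fderiv_subset ℝ h))
  have hcs : HasCompactSupport F :=
    (isCompact_closedBall a R).of_isClosed_subset (isClosed_tsupport F) hts
  -- the truncated functions
  have hev : ∀ (N : ℝ) (y : V), (vort v y = 0 ∨ y ∉ closedBall a R) →
      (fun z => F z * (θ z * Hn v N z)) =ᶠ[𝓝 y] fun _ => 0 := by
    intro N y hy
    rcases hy with hy | hy
    · have h1 : N * qq v y - 1 < 0 := by
        have : qq v y = 0 := by unfold qq; simp [hy]
        rw [this]; norm_num
      have h2 : Continuous fun z => N * qq v z - 1 :=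
        (continuous_const.mul (qq_smooth hv).continuous).sub continuous_const
      filter_upwards [h2.continuousAt.eventually (gt_mem_nhds h1)] with z hz
      have : Hn v N z = 0 := Real.smoothTransition.zero_of_nonpos (le_of_lt hz)
      rw [this, mul_zero, mul_zero]
    · filter_upwards [isClosed_closedBall.isOpen_compl.mem_nhds hy] with z hz
      rw [hF0 z hz, zero_mul]
  have hev2 : ∀ (N : ℝ) (y : V), vort v y ≠ 0 → y ∈ closedBall a R →
      (fun z => F z * (θ z * Hn v N z)) =ᶠ[𝓝 y] fun z => θ y * (F z * Hn v N z) := by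
    intro N y h0 hy
    filter_upwards [hloc y ((hmem y).1 hy) h0] with z hz
    by_cases hz' : z ∈ closedBall a R
    · rw [hz ((hmem z).1 hz')]
      ring
    · rw [hF0 z hz']
      ring
  have hsm : ∀ N : ℝ, ContDiff ℝ 1 fun z => F z * (θ z * Hn v N z) := by
    intro N
    rw [contDiff_iff_contDiffAt]
    intro y
    by_cases h0 : vort v y = 0
    · exact contDiffAt_const.congr_of_eventuallyEq (hev N y (Or.inl h0))
    by_cases hy : y ∈ closedBall a R
    · exact (contDiffAt_const.mul (hF.contDiffAt.mul (Hn_smooth hv N).contDiffAt)).congr_of_eventuallyEq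
        (hev2 N y h0 hy)
    · exact contDiffAt_const.congr_of_eventuallyEq (hev N y (Or.inr hy))
  have hder : ∀ (N : ℝ) (y : V), fderiv ℝ (fun z => F z * (θ z * Hn v N z)) y (vort v y)
      = Hn v N y * fderiv ℝ F y (W y) + F y * fderiv ℝ (Hn v N) y (W y) := by
    intro N y
    by_cases h0 : vort v y = 0
    · rw [(hev N y (Or.inl h0)).fderiv_eq]
      by_cases hy : y ∈ closedBall a R
      · rw [hWe y ((hmem y).1 hy), h0]
        simp
      · rw [hF0 y hy, hdF0 y hy]
        simp
    by_cases hy : y ∈ closedBall a R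
    · rw [(hev2 N y h0 hy).fderiv_eq]
      have h1 : HasFDerivAt F (fderiv ℝ F y) y := (hF.differentiable one_ne_zero y).hasFDerivAt
      have h2 : HasFDerivAt (Hn v N) (fderiv ℝ (Hn v N) y) y :=
        ((Hn_smooth hv N).differentiable one_ne_zero y).hasFDerivAt
      have h3 := ((h1.fun_mul h2).const_mul (θ y)).fderiv
      rw [h3, hWe y ((hmem y).1 hy), map_smul, map_smul]
      simp only [ContinuousLinearMap.smul_apply, ContinuousLinearMap.add_apply, smul_eq_mul]
      ring
    · rw [(hev N y (Or.inr hy)).fderiv_eq, hF0 y hy, hdF0 y hy]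
      simp
  have hI : ∀ N : ℝ, ∫ y, (Hn v N y * fderiv ℝ F y (W y) + F y * fderiv ℝ (Hn v N) y (W y)) = 0 := by
    intro N
    have h1 := div_int (vort_df hv) (hsm N) (hcs.mul_right)
    simp only [hder] at h1
    exact h1
  -- continuity
  have c1 : Continuous fun y => fderiv ℝ F y (W y) :=
    (hF.continuous_fderiv one_ne_zero).clm_apply hWc
  have c2 : ∀ N, Continuous fun y => fderiv ℝ (Hn v N) y (W y) := fun N =>
    ((Hn_smooth hv N).continuous_fderiv one_ne_zero).clm_apply hWc
  have c3 : ∀ i, Continuous fun y => ‖fderiv ℝ (fun z => vort v z i) y‖ := fun i =>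
    ((sm_vortL hv i).continuous_fderiv (by norm_num)).norm
  have hcs1 : HasCompactSupport fun y => fderiv ℝ F y (W y) := by
    refine hcs.mono' ?_
    intro y hy
    refine support_fderiv_subset ℝ (f := F) fun h => hy ?_
    show fderiv ℝ F y (W y) = 0
    rw [h]
    rfl
  obtain ⟨K, hK0, hK⟩ := st_bdd
  have hWn : ∀ y, y ∈ closedBall a R → ‖W y‖ = ‖vort v y‖ := fun y hy => by
    rw [hWe y ((hmem y).1 hy), norm_smul, Real.norm_eq_abs, habs, one_mul]
  have hHb : ∀ (N : ℝ) (y : V), 0 ≤ N → y ∈ closedBall a R → |fderiv ℝ (Hn v N) y (W y)| ≤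
      K * (4 * ∑ i, ‖fderiv ℝ (fun z => vort v z i) y‖) := by
    intro N y hN hy
    rw [Hn_deriv hv, abs_mul]
    by_cases hx : 1 < N * qq v y - 1
    · rw [st_zero hx, abs_zero, zero_mul]
      exact mul_nonneg hK0 (mul_nonneg (by norm_num) (Finset.sum_nonneg fun i _ => norm_nonneg _))
    · refine mul_le_mul (hK _) ?_ (abs_nonneg _) hK0
      rw [abs_mul, abs_of_nonneg hN]
      have h1 : |∑ i, 2 * vort v y i * fderiv ℝ (fun z => vort v z i) y (W y)| ≤
          2 * ‖vort v y‖ ^ 2 * ∑ i, ‖fderiv ℝ (fun z => vort v z i) y‖ := by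
        refine (Finset.abs_sum_le_sum_abs _ _).trans ?_
        rw [Finset.mul_sum]
        refine Finset.sum_le_sum fun i _ => ?_
        rw [abs_mul, abs_mul, abs_of_pos (by norm_num : (0 : ℝ) < 2)]
        have h2 : |vort v y i| ≤ ‖vort v y‖ := norm_le_pi_norm (vort v y) i
        have h3 : |fderiv ℝ (fun z => vort v z i) y (W y)| ≤
            ‖fderiv ℝ (fun z => vort v z i) y‖ * ‖vort v y‖ := by
          rw [← hWn y hy, ← Real.norm_eq_abs]
          exact ContinuousLinearMap.le_opNorm _ _
        calc 2 * |vort v y i| * |fderiv ℝ (fun z => vort v z i) y (W y)|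
            ≤ 2 * ‖vort v y‖ * (‖fderiv ℝ (fun z => vort v z i) y‖ * ‖vort v y‖) := by gcongr
          _ = _ := by ring
      have h4 : N * ‖vort v y‖ ^ 2 ≤ 2 := by
        have := mul_le_mul_of_nonneg_left (norm_sq_le_qq v y) hN
        linarith
      have h5 : 0 ≤ ∑ i, ‖fderiv ℝ (fun z => vort v z i) y‖ :=
        Finset.sum_nonneg fun i _ => norm_nonneg _
      calc N * |∑ i, 2 * vort v y i * fderiv ℝ (fun z => vort v z i) y (W y)|
          ≤ N * (2 * ‖vort v y‖ ^ 2 * ∑ i, ‖fderiv ℝ (fun z => vort v z i) y‖) :=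
            mul_le_mul_of_nonneg_left h1 hN
        _ = 2 * (N * ‖vort v y‖ ^ 2) * ∑ i, ‖fderiv ℝ (fun z => vort v z i) y‖ := by ring
        _ ≤ 2 * 2 * ∑ i, ‖fderiv ℝ (fun z => vort v z i) y‖ := by gcongr
        _ = _ := by ring
  have hHle : ∀ N y, |Hn v N y| ≤ 1 := fun N y => by
    unfold Hn
    rw [abs_of_nonneg (Real.smoothTransition.nonneg _)]
    exact Real.smoothTransition.le_one _
  have hb1 : Integrable fun y => |fderiv ℝ F y (W y)| :=
    (c1.integrable_of_hasCompactSupport hcs1).abs
  have hb2 : Integrable fun y => |F y| * (K * (4 * ∑ i, ‖fderiv ℝ (fun z => vort v z i) y‖)) := by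
    refine Continuous.integrable_of_hasCompactSupport ?_ ?_
    · exact hF.continuous.abs.mul (continuous_const.mul (continuous_const.mul
        (continuous_finset_sum _ fun i _ => c3 i)))
    · exact (hcs.comp_left (g := fun x : ℝ => |x|) abs_zero).mul_right
  have lim1 : Tendsto (fun n : ℕ => ∫ y, Hn v n y * fderiv ℝ F y (W y)) atTop
      (𝓝 (∫ y, fderiv ℝ F y (W y))) := by
    refine tendsto_integral_of_dominated_convergence (fun y => |fderiv ℝ F y (W y)|)
      (fun n => ((Hn_smooth hv n).continuous.mul c1).aestronglyMeasurable) hb1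
      (fun n => Eventually.of_forall fun y => ?_) (Eventually.of_forall fun y => ?_)
    · rw [norm_mul, Real.norm_eq_abs, Real.norm_eq_abs]
      exact mul_le_of_le_one_left (abs_nonneg _) (hHle _ _)
    · by_cases h0 : y ∈ closedBall a R ∧ vort v y ≠ 0
      · have hq := qq_pos h0.2
        obtain ⟨n₀, hn₀⟩ := exists_nat_ge (2 / qq v y)
        refine tendsto_const_nhds.congr' ?_
        filter_upwards [eventually_ge_atTop n₀] with n hn
        have h1 : (1 : ℝ) ≤ n * qq v y - 1 := by
          have h2 : (2 / qq v y) ≤ n := hn₀.trans (by exact_mod_cast hn)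
          rw [div_le_iff₀ hq] at h2
          linarith
        have : Hn v n y = 1 := Real.smoothTransition.one_of_one_le h1
        rw [this, one_mul]
      · have h1 : fderiv ℝ F y (W y) = 0 := by
          by_cases hy : y ∈ closedBall a R
          · have : vort v y = 0 := by
              by_contra h
              exact h0 ⟨hy, h⟩
            rw [hWe y ((hmem y).1 hy), this]
            simp
          · rw [hdF0 y hy]
            rfl
        simp only [h1, mul_zero]
        exact tendsto_const_nhds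
  have lim2 : Tendsto (fun n : ℕ => ∫ y, F y * fderiv ℝ (Hn v n) y (W y)) atTop (𝓝 0) := by
    have h0 : (0 : ℝ) = ∫ _ : V, (0 : ℝ) := by simp
    rw [h0]
    refine tendsto_integral_of_dominated_convergence
      (fun y => |F y| * (K * (4 * ∑ i, ‖fderiv ℝ (fun z => vort v z i) y‖)))
      (fun n => (hF.continuous.mul (c2 n)).aestronglyMeasurable) hb2
      (fun n => Eventually.of_forall fun y => ?_) (Eventually.of_forall fun y => ?_)
    · rw [norm_mul, Real.norm_eq_abs, Real.norm_eq_abs]
      by_cases hy : y ∈ closedBall a R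
      · exact mul_le_mul_of_nonneg_left (hHb n y (Nat.cast_nonneg n) hy) (abs_nonneg _)
      · rw [hF0 y hy, abs_zero, zero_mul, zero_mul]
    · by_cases h0 : y ∈ closedBall a R ∧ vort v y ≠ 0
      · have hq := qq_pos h0.2
        obtain ⟨n₀, hn₀⟩ := exists_nat_ge (3 / qq v y)
        refine tendsto_const_nhds.congr' ?_
        filter_upwards [eventually_ge_atTop n₀] with n hn
        have h1 : (1 : ℝ) < n * qq v y - 1 := by
          have h2 : (3 / qq v y) ≤ n := hn₀.trans (by exact_mod_cast hn)
          rw [div_le_iff₀ hq] at h2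
          linarith
        rw [Hn_deriv hv, st_zero h1, zero_mul, mul_zero]
      · have h1 : ∀ n : ℕ, F y * fderiv ℝ (Hn v n) y (W y) = 0 := by
          intro n
          by_cases hy : y ∈ closedBall a R
          · have : vort v y = 0 := by
              by_contra h
              exact h0 ⟨hy, h⟩
            rw [hWe y ((hmem y).1 hy), this]
            simp
          · rw [hF0 y hy, zero_mul]
        simp only [h1]
        exact tendsto_const_nhds
  have hsum : ∀ n : ℕ, (∫ y, Hn v n y * fderiv ℝ F y (W y)) +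
      ∫ y, F y * fderiv ℝ (Hn v n) y (W y) = 0 := by
    intro n
    rw [← integral_add]
    · exact hI n
    · exact (((Hn_smooth hv n).continuous.mul c1).integrable_of_hasCompactSupport hcs1.mul_left)
    · exact ((hF.continuous.mul (c2 n)).integrable_of_hasCompactSupport hcs.mul_right)
  have hlim := lim1.add lim2
  simp only [hsum, add_zero] at hlim
  have h3 : ∫ y, fderiv ℝ F y (W y) = 0 := tendsto_nhds_unique hlim tendsto_const_nhds |>.symm ▸ rfl
  rw [setIntegral_eq_integral_of_forall_compl_eq_zero, h3]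
  intro y hy
  rw [hdF0 y hy]
  rfl

end Run7.h219.VL
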